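import Pool.Agent.N436.DF.Stm3

/-!
# DH/7: the two-sided argument
-/

set_option autoImplicit false

namespace Pool.Agent.N457.DF

open Finset Pool.Agent.N436.DF

theorem aux {V : Type} [DecidableEq V] (hg : S3_glue) (H : Hub V) (S X : Finset V) (v w : V)
    (f g : V → Bool) (p q s : V → V → ℤ) (l : Bool → V → ℤ) (hmc : MinCex P13 H S) (hX : X ⊆ S)
    (honly : ∀ x ∈ X, ∀ z ∈ S \ X, H.r x z = 1 → x = v ∧ z = w) (hus : US H S X f p s)
    (hne : f v ≠ g w)
    (h1 : ∀ z ∈ S \ X, (∑ x ∈ X with f x = true, (H.m x z - s x z) ≤ l false z))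
    (h2 : ∀ z ∈ S \ X, (∑ x ∈ X with f x = false, (H.m x z - s x z) ≤ l true z))
    (hcol : ColBy H (S \ X) g q)
    (hcap : ∀ z ∈ S \ X, load H (S \ X) g q z + l (g z) z ≤ H.c (g z) z) : False := by
  have hsB : ∀ z x, (0 : ℤ) ≤ (if g z = f x then 0 else H.m x z - s x z) := by
    intro z x
    split_ifs
    · exact le_rfl
    · have := hus.le x z
      linarith
  obtain ⟨F, P', hF, -⟩ := hg V H S X f g p q s (fun z x => if g z = f x then 0 else
    H.m x z - s x z) hmc.ok hX hus.col hcol hus.nn hsB (by
      intro x hx z hz hfg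
      have hr : H.r x z = 0 := by
        rcases hmc.ok.r01 x z with h | h
        · exact h
        · obtain ⟨rfl, rfl⟩ := honly x hx z hz h
          exact absurd hfg hne
      rw [hr]
      exact ⟨hus.nn x z, hsB z x⟩) (by
      intro x hx z hz hfg
      have h3 : ¬ g z = f x := fun h => hfg h.symm
      simp only [if_neg h3]
      linarith) hus.cap (by
      intro z hz
      have h3 : ∑ x ∈ X, (if g z = f x then (0 : ℤ) else H.m x z - s x z) ≤ l (g z) z := by
        rcases hgz : g z with _ | _
        · have h4 := h1 z hz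
          rw [Finset.sum_filter] at h4
          refine le_trans (le_of_eq ?_) h4
          refine Finset.sum_congr rfl fun x _ => ?_
          rcases f x with _ | _ <;> simp
        · have h4 := h2 z hz
          rw [Finset.sum_filter] at h4
          refine le_trans (le_of_eq ?_) h4
          refine Finset.sum_congr rfl fun x _ => ?_
          rcases f x with _ | _ <;> simp
      have h5 := hcap z hz
      linarith)
  exact hmc.ncol ⟨F, P', hF⟩

/-- DH/7: the two-sided argument -/
theorem two3 (hs : S3_state) (hg : S3_glue) : S3_two := by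
  intro V _ H S X v w f₁ f₂ p₁ p₂ s₁ s₂ l hmc hX hv hw honly hu₁ hu₂ hf₁ hf₂ hl hsum hcost
  obtain ⟨g, q, hcol, hcap⟩ := hs V H S (S \ X) l hmc Finset.sdiff_subset (by
    intro h
    have h1 : v ∈ S \ X := by
      rw [h]
      exact hX hv
    exact (Finset.mem_sdiff.1 h1).2 hv) hl hcost
  rcases hgw : g w with _ | _
  · exact aux hg H S X v w f₁ g p₁ q s₁ l hmc hX honly hu₁ (by rw [hf₁, hgw]; decide)
      (fun z hz => (hsum z hz).1) (fun z hz => (hsum z hz).2.1) hcol fun z hz => (hcap z hz).1
  · exact aux hg H S X v w f₂ g p₂ q s₂ l hmc hX honly hu₂ (by rw [hf₂, hgw]; decide)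
      (fun z hz => (hsum z hz).2.2.1) (fun z hz => (hsum z hz).2.2.2) hcol
      fun z hz => (hcap z hz).1

end Pool.Agent.N457.DF
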